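import Mathlib

/-!
# Local loop lemma: combs and good tuples
-/

set_option autoImplicit false

universe u

namespace Pool.Agent.E8helper68.LL

variable {A : Type u} {n : ℕ}

/-- A symmetric relation `R`, an idempotent compatible operation `f`, and an element `a` which is
absorbed by its set of neighbours. -/
structure Setup (R : A → A → Prop) (f : (Fin n → A) → A) (a : A) : Prop where
  symm : ∀ {x y : A}, R x y → R y x
  idem : ∀ x : A, f (fun _ => x) = x
  comp : ∀ {x y : Fin n → A}, (∀ i, R (x i) (y i)) → R (f x) (f y)
  abs : ∀ (j : Fin n) (x : Fin n → A), x j = a → (∀ i, i ≠ j → R a (x i)) → R a (f x)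

/-- `Good R f a k y`: the `k`-th coordinate of `y` is obtained from `a` by following walks in the
other coordinates. -/
inductive Good (R : A → A → Prop) (f : (Fin n → A) → A) (a : A) (k : Fin n) :
    (Fin n → A) → Prop
  | base (y : Fin n → A) : y k = a → (∀ g, g ≠ k → R a (y g)) → Good R f a k y
  | step (y y' : Fin n → A) : Good R f a k y → (∀ g, g ≠ k → R (y g) (y' g)) → y' k = f y →
      Good R f a k y'

variable {R : A → A → Prop} {f : (Fin n → A) → A} {a : A}

theorem Good.adj (S : Setup R f a) {k : Fin n} {y : Fin n → A} (h : Good R f a k y) :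
    R (f y) (y k) := by
  induction h with
  | base y h1 h2 =>
    rw [h1]
    exact S.symm (S.abs k y h1 h2)
  | step y y' _ h2 h3 ih =>
    rw [h3]
    apply S.comp
    intro i
    by_cases hi : i = k
    · subst hi
      rw [h3]
      exact ih
    · exact S.symm (h2 i hi)

theorem loop_of_good (S : Setup R f a) (x : Fin n → A) (h : ∀ k, Good R f a k x) :
    R (f x) (f x) := by
  have h1 := S.comp (x := fun _ => f x) (y := x) (fun i => (h i).adj S)
  rwa [S.idem] at h1

/-- The comb `f_k(Y 0; f_k(Y 1; ... f_k(Y (M-1); E)))` with the spine in position `k`. -/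
def comb (f : (Fin n → A) → A) (k : Fin n) : ℕ → (ℕ → Fin n → A) → A → A
  | 0, _, E => E
  | M + 1, Y, E => f (fun g => if g = k then comb f k M (fun i => Y (i + 1)) E else Y 0 g)

theorem comb_adj (S : Setup R f a) (k : Fin n) (M : ℕ) : ∀ (Y Y' : ℕ → Fin n → A) (E E' : A),
    (∀ i < M, ∀ g, g ≠ k → R (Y i g) (Y' i g)) → R E E' →
    R (comb f k M Y E) (comb f k M Y' E') := by
  induction M with
  | zero => intro Y Y' E E' _ h; exact h
  | succ M ih =>
    intro Y Y' E E' h1 h2
    simp only [comb]
    apply S.comp
    intro g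
    by_cases hg : g = k
    · simp only [hg, if_true]
      exact ih _ _ E E' (fun i hi g hg => h1 (i + 1) (by omega) g hg) h2
    · simp only [hg, if_false]
      exact h1 0 (by omega) g hg

theorem comb_const (S : Setup R f a) (k : Fin n) (M : ℕ) (t : A) :
    comb f k M (fun _ _ => t) t = t := by
  induction M with
  | zero => rfl
  | succ M ih =>
    simp only [comb]
    rw [show (fun g : Fin n => if g = k then comb f k M (fun _ _ => t) t else t) =
      fun _ => t from ?_, S.idem]
    funext g
    rw [ih]
    simp

theorem const_adj_comb (S : Setup R f a) (k : Fin n) (M : ℕ) (t : A) (Y : ℕ → Fin n → A) (E : A)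
    (h1 : ∀ i < M, ∀ g, g ≠ k → R t (Y i g)) (h2 : R t E) : R t (comb f k M Y E) := by
  have h := comb_adj S k M (fun _ _ => t) Y t E h1 h2
  rwa [comb_const S] at h

theorem good_comb (S : Setup R f a) (k : Fin n) (M : ℕ) : ∀ (X : ℕ → Fin n → A),
    (∀ i < M, ∀ g, g ≠ k → R (X i g) (X (i + 1) g)) → (∀ g, g ≠ k → R a (X M g)) →
    Good R f a k (fun g => if g = k then comb f k M (fun i => X (i + 1)) a else X 0 g) := by
  induction M with
  | zero =>
    intro X _ h2
    apply Good.base
    · simp [comb]
    · intro g hg
      simp only [hg, if_false]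
      exact h2 g hg
  | succ M ih =>
    intro X h1 h2
    have h3 := ih (fun i => X (i + 1)) (fun i hi g hg => h1 (i + 1) (by omega) g hg) h2
    refine Good.step _ _ h3 ?_ ?_
    · intro g hg
      simp only [hg, if_false]
      exact S.symm (h1 0 (by omega) g hg)
    · simp only [if_true, comb]

end Pool.Agent.E8helper68.LL
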