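import Mathlib

/-!
# A local colouring of words with three colours

Words are functions `ω : ℕ → Fin n` (`ω 0` is the last letter).  A word is valid if consecutive
letters are distinct.  There is a colouring of words with three colours which depends only on
finitely many letters and for which a valid word and its tail get different colours.
-/

set_option autoImplicit false

namespace Pool.Agent.E8helper68.LL

variable {n : ℕ}

/-- remove the last letter -/
def tl (ω : ℕ → Fin n) : ℕ → Fin n := fun i => ω (i + 1)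

/-- append a letter -/
def cs (g : Fin n) (ω : ℕ → Fin n) : ℕ → Fin n
  | 0 => g
  | i + 1 => ω i

/-- consecutive letters are distinct -/
def Valid (ω : ℕ → Fin n) : Prop := ∀ i, ω i ≠ ω (i + 1)

theorem Valid.tl {ω : ℕ → Fin n} (h : Valid ω) : Valid (tl ω) := fun i => h (i + 1)

theorem Valid.cs {ω : ℕ → Fin n} (h : Valid ω) {g : Fin n} (hg : g ≠ ω 0) : Valid (cs g ω) := by
  intro i
  cases i with
  | zero => exact hg
  | succ i => exact h i

theorem tl_cs (g : Fin n) (ω : ℕ → Fin n) : tl (cs g ω) = ω := rfl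

/-- the least element of `{0, 1, 2}` different from `p` and `q` -/
def mex (p q : ℕ) : ℕ := if p ≠ 0 ∧ q ≠ 0 then 0 else if p ≠ 1 ∧ q ≠ 1 then 1 else 2

theorem mex_ne_left (p q : ℕ) : mex p q ≠ p := by
  unfold mex
  split_ifs <;> omega

theorem mex_ne_right (p q : ℕ) : mex p q ≠ q := by
  unfold mex
  split_ifs <;> omega

theorem mex_le (p q : ℕ) : mex p q ≤ 2 := by
  unfold mex
  split_ifs <;> omega

/-- `φ` is a proper colouring with colours `0, ..., K` depending on `q` letters -/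
structure IsCol (K q : ℕ) (φ : (ℕ → Fin n) → ℕ) : Prop where
  le : ∀ ω, Valid ω → φ ω ≤ K
  ne : ∀ ω, Valid ω → φ ω ≠ φ (tl ω)
  loc : ∀ ω ω' : ℕ → Fin n, (∀ i < q, ω i = ω' i) → φ ω = φ ω'

theorem IsCol.red {K q : ℕ} {φ : (ℕ → Fin n) → ℕ} (h : IsCol (K + 1) q φ) (hK : 2 ≤ K) :
    ∃ φ' : (ℕ → Fin n) → ℕ, IsCol K (q + 2) φ' := by
  refine ⟨fun ω => if φ (tl ω) = K + 1 then mex (φ ω) (φ (tl (tl ω))) else φ (tl ω), ?_, ?_, ?_⟩
  · intro ω hω
    have h1 := h.le _ hω.tl
    have h2 := mex_le (φ ω) (φ (tl (tl ω)))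
    split_ifs with h3
    · omega
    · omega
  · intro ω hω
    have h1 := h.ne _ hω
    have h2 := h.ne _ hω.tl
    have h3 := h.ne _ hω.tl.tl
    have h4 := mex_ne_left (φ ω) (φ (tl (tl ω)))
    have h5 := mex_ne_right (φ ω) (φ (tl (tl ω)))
    have h6 := mex_ne_left (φ (tl ω)) (φ (tl (tl (tl ω))))
    split_ifs with h7 h8 h8
    · omega
    · exact h5
    · exact h6.symm
    · exact h2
  · intro ω ω' hω
    have h1 : φ ω = φ ω' := h.loc _ _ (fun i hi => hω i (by omega))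
    have h2 : φ (tl ω) = φ (tl ω') := h.loc _ _ (fun i hi => hω (i + 1) (by omega))
    have h3 : φ (tl (tl ω)) = φ (tl (tl ω')) := h.loc _ _ (fun i hi => hω (i + 2) (by omega))
    rw [h1, h2, h3]

theorem IsCol.down {d : ℕ} : ∀ {q : ℕ} {φ : (ℕ → Fin n) → ℕ}, IsCol (2 + d) q φ →
    ∃ (q' : ℕ) (φ' : (ℕ → Fin n) → ℕ), IsCol 2 q' φ' := by
  induction d with
  | zero => intro q φ h; exact ⟨q, φ, h⟩
  | succ d ih =>
    intro q φ h
    obtain ⟨φ', h'⟩ := IsCol.red (K := 2 + d) h (by omega)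
    exact ih h'

theorem exists_col (n : ℕ) : ∃ (q : ℕ) (φ : (ℕ → Fin n) → Fin 3),
    (∀ ω, Valid ω → φ ω ≠ φ (tl ω)) ∧
    (∀ ω ω' : ℕ → Fin n, (∀ i < q, ω i = ω' i) → φ ω = φ ω') := by
  have h0 : IsCol (2 + n) 1 (fun ω : ℕ → Fin n => ((ω 0 : Fin n) : ℕ)) := by
    refine ⟨?_, ?_, ?_⟩
    · intro ω _
      have := (ω 0).isLt
      omega
    · intro ω hω h
      exact hω 0 (Fin.ext h)
    · intro ω ω' h
      simp only [h 0 (by omega)]
  obtain ⟨q, φ, h⟩ := IsCol.down h0
  refine ⟨q, fun ω => ⟨min (φ ω) 2, by omega⟩, ?_, ?_⟩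
  · intro ω hω hc
    have h1 := h.le _ hω
    have h2 := h.le _ hω.tl
    have h3 := h.ne _ hω
    have h4 : min (φ ω) 2 = min (φ (tl ω)) 2 := congrArg Fin.val hc
    omega
  · intro ω ω' hω
    have := h.loc _ _ hω
    simp only [this]

end Pool.Agent.E8helper68.LL
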