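import Pool.Agent.E8helper68.LL.Main

/-!
# Local loop lemma: descent along odd closed walks
-/

set_option autoImplicit false

universe u

namespace Pool.Agent.E8helper68.LL

variable {A : Type u} {n : ℕ}

/-- there is an `R`-walk of length `k` from `x` to `y` -/
def W (R : A → A → Prop) : ℕ → A → A → Prop
  | 0, x, y => x = y
  | k + 1, x, y => ∃ z, R x z ∧ W R k z y

variable {R : A → A → Prop} {f : (Fin n → A) → A} {a b : A}

theorem W_one {x y : A} : W R 1 x y ↔ R x y := by
  constructor
  · rintro ⟨z, h1, h2⟩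
    rw [← (h2 : z = y)]
    exact h1
  · intro h
    exact ⟨y, h, rfl⟩

theorem W_add : ∀ {j k : ℕ} {x y z : A}, W R j x y → W R k y z → W R (j + k) x z := by
  intro j
  induction j with
  | zero =>
    intro k x y z h1 h2
    rw [Nat.zero_add, (h1 : x = y)]
    exact h2
  | succ j ih =>
    intro k x y z h1 h2
    obtain ⟨w, h3, h4⟩ := h1
    rw [Nat.succ_add]
    exact ⟨w, h3, ih h4 h2⟩

theorem W_split : ∀ {j k : ℕ} {x z : A}, W R (j + k) x z → ∃ y, W R j x y ∧ W R k y z := by
  intro j
  induction j with
  | zero =>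
    intro k x z h
    rw [Nat.zero_add] at h
    exact ⟨x, rfl, h⟩
  | succ j ih =>
    intro k x z h
    rw [Nat.succ_add] at h
    obtain ⟨w, h3, h4⟩ := h
    obtain ⟨y, h5, h6⟩ := ih h4
    exact ⟨y, ⟨w, h3, h5⟩, h6⟩

theorem W_symm (hR : ∀ {x y : A}, R x y → R y x) : ∀ {k : ℕ} {x y : A}, W R k x y → W R k y x := by
  intro k
  induction k with
  | zero => intro x y h; exact (h : x = y).symm
  | succ k ih =>
    intro x y h
    obtain ⟨z, h1, h2⟩ := h
    exact W_add (ih h2) (W_one.2 (hR h1))

theorem W_even (hR : ∀ {x y : A}, R x y → R y x) {x y : A} (h : R x y) (t : ℕ) :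
    W R (2 * t) x x := by
  induction t with
  | zero => rfl
  | succ t ih =>
    rw [Nat.mul_succ]
    exact W_add ih ⟨y, h, x, hR h, rfl⟩

theorem W_comp (hc : ∀ {x y : Fin n → A}, (∀ i, R (x i) (y i)) → R (f x) (f y)) :
    ∀ {k : ℕ} {x y : Fin n → A}, (∀ i, W R k (x i) (y i)) → W R k (f x) (f y) := by
  intro k
  induction k with
  | zero =>
    intro x y h
    have : x = y := funext h
    rw [this]
    rfl
  | succ k ih =>
    intro x y h
    choose z h1 h2 using h
    exact ⟨f z, hc h1, ih h2⟩

theorem W_mul : ∀ {s M : ℕ} {x y : A}, W R (s * M) x y → W (W R s) M x y := by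
  intro s M
  induction M with
  | zero => intro x y h; exact h
  | succ M ih =>
    intro x y h
    rw [Nat.mul_succ, Nat.add_comm] at h
    obtain ⟨z, h1, h2⟩ := W_split h
    exact ⟨z, h1, ih h2⟩

theorem W_unmul : ∀ {s M : ℕ} {x y : A}, W (W R s) M x y → W R (s * M) x y := by
  intro s M
  induction M with
  | zero => intro x y h; exact h
  | succ M ih =>
    intro x y h
    obtain ⟨z, h1, h2⟩ := h
    rw [Nat.mul_succ, Nat.add_comm]
    exact W_add h1 (ih h2)

theorem W_of_seq (w : ℕ → A) (h : ∀ i, R (w i) (w (i + 1))) (N : ℕ) : W R N (w 0) (w N) := by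
  induction N with
  | zero => rfl
  | succ N ih => exact W_add ih (W_one.2 (h N))

theorem seq_of_W (hab : R a b) (hba : R b a) : ∀ (M : ℕ) (x : A), W R M x a →
    ∃ ζ : ℕ → A, ζ 0 = x ∧ ζ M = a ∧ ∀ i, R (ζ i) (ζ (i + 1)) := by
  intro M
  induction M with
  | zero =>
    intro x hx
    refine ⟨fun i => if i % 2 = 0 then a else b, ?_, ?_, ?_⟩
    · simp only [Nat.zero_mod, if_true]
      exact (hx : x = a).symm
    · simp
    · intro i
      rcases Nat.mod_two_eq_zero_or_one i with h | h
      · have h' : (i + 1) % 2 = 1 := by omega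
        simp only [h, h', if_true]
        exact hab
      · have h' : (i + 1) % 2 = 0 := by omega
        simp only [h, h', if_true]
        exact hba
  | succ M ih =>
    intro x hx
    obtain ⟨z, h1, h2⟩ := hx
    obtain ⟨ζ, h3, h4, h5⟩ := ih z h2
    refine ⟨fun i => Nat.casesOn i x ζ, rfl, h4, ?_⟩
    intro i
    cases i with
    | zero =>
      show R x (ζ 0)
      rw [h3]
      exact h1
    | succ i => exact h5 i

theorem Setup.odd (S : Setup R f a) (hab : R a b) (t : ℕ) : Setup (W R (2 * t + 1)) f a := by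
  refine ⟨fun h => W_symm S.symm h, S.idem, fun h => W_comp S.comp h, ?_⟩
  intro j x hj hx
  have h1 : ∀ i, ∃ y, (i ≠ j → R a y) ∧ (i = j → y = a) ∧ W R (2 * t) y (x i) := by
    intro i
    by_cases hi : i = j
    · refine ⟨a, fun h => absurd hi h, fun _ => rfl, ?_⟩
      rw [hi, hj]
      exact W_even S.symm hab t
    · have h2 := hx i hi
      rw [Nat.add_comm] at h2
      obtain ⟨y, h3, h4⟩ := W_split h2
      exact ⟨y, fun _ => W_one.1 h3, fun h => absurd h hi, h4⟩
  choose y h2 h3 h4 using h1
  have h5 : R a (f y) := S.abs j y (h3 j rfl) (fun i hi => h2 i hi)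
  have h6 : W R (2 * t) (f y) (f x) := W_comp S.comp h4
  rw [Nat.add_comm]
  exact W_add (W_one.2 h5) h6

/-- If a vertex connected to `a` lies on a closed walk of odd length then `R` has a loop. -/
theorem loop_of_odd (S : Setup R f a) (hab : R a b) : ∀ (t : ℕ) (x : A) (N : ℕ),
    W R (2 * t + 1) x x → W R N a x → ∃ y, R y y := by
  intro t
  induction t with
  | zero =>
    intro x N h _
    exact ⟨x, W_one.1 h⟩
  | succ t ih =>
    intro x N h hN
    -- small arities
    by_cases hn : 2 ≤ n
    swap
    · have : n = 0 ∨ n = 1 := by omega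
      rcases this with rfl | rfl
      · have h1 := S.idem a
        have h2 := S.idem b
        have h3 : (fun _ : Fin 0 => a) = fun _ => b := by
          funext i
          exact i.elim0
        rw [h3, h2] at h1
        rw [h1] at hab
        exact ⟨a, hab⟩
      · have h1 := S.abs 0 (fun _ => a) rfl (fun i hi => absurd (Subsingleton.elim i 0) hi)
        rw [S.idem] at h1
        exact ⟨a, h1⟩
    -- the triangle
    obtain ⟨w1, h1, w2, h2, h3⟩ := h
    have hba := S.symm hab
    have hS := S.odd hab t
    have e01 : W R (2 * t + 1) x w1 := W_add (W_even S.symm h1 t) (W_one.2 h1)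
    have e12 : W R (2 * t + 1) w1 w2 := W_add (W_even S.symm h2 t) (W_one.2 h2)
    have e20 : W R (2 * t + 1) w2 x := h3
    let T : Fin 3 → A := ![x, w1, w2]
    have hT : ∀ i j, i ≠ j → W R (2 * t + 1) (T i) (T j) := by
      intro i j hij
      fin_cases i <;> fin_cases j
      · exact absurd rfl hij
      · exact e01
      · exact hS.symm e20
      · exact hS.symm e01
      · exact absurd rfl hij
      · exact e12
      · exact e20
      · exact hS.symm e12
      · exact absurd rfl hij
    -- walks from `a` to the triangle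
    have hodd : W R (N + (2 * (t + 1) + 1) + N) a a :=
      W_add (W_add hN ⟨w1, h1, w2, h2, h3⟩) (W_symm S.symm hN)
    have haa : ∀ K, N + (2 * (t + 1) + 1) + N ≤ K → W R K a a := by
      intro K hK
      rcases Nat.even_or_odd' K with ⟨j, hj | hj⟩
      · rw [hj]
        exact W_even S.symm hab j
      · have : K = N + (2 * (t + 1) + 1) + N + 2 * (j - N - (t + 1)) := by omega
        rw [this]
        exact W_add hodd (W_even S.symm hab _)
    have hx : ∀ K, N + (2 * (t + 1) + 1) + N + N + 2 ≤ K → ∀ θ, W R K (T θ) a := by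
      intro K hK θ
      apply W_symm S.symm
      have f0 : ∀ K', N + (2 * (t + 1) + 1) + N + N ≤ K' → W R K' a x := by
        intro K' hK'
        have : K' = (K' - N) + N := by omega
        rw [this]
        exact W_add (haa _ (by omega)) hN
      have f1 : ∀ K', N + (2 * (t + 1) + 1) + N + N + 1 ≤ K' → W R K' a w1 := by
        intro K' hK'
        have : K' = (K' - 1) + 1 := by omega
        rw [this]
        exact W_add (f0 _ (by omega)) (W_one.2 h1)
      have f2 : ∀ K', N + (2 * (t + 1) + 1) + N + N + 2 ≤ K' → W R K' a w2 := by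
        intro K' hK'
        have : K' = (K' - 1) + 1 := by omega
        rw [this]
        exact W_add (f1 _ (by omega)) (W_one.2 h2)
      fin_cases θ
      · exact f0 _ (by omega)
      · exact f1 _ (by omega)
      · exact f2 _ (by omega)
    set m := N + (2 * (t + 1) + 1) + N + N + 2 with hm
    have hζ : ∀ θ, ∃ ζ : ℕ → A, ζ 0 = T θ ∧ ζ (m + 1) = a ∧
        ∀ i, W R (2 * t + 1) (ζ i) (ζ (i + 1)) := by
      intro θ
      have e1 : W R (2 * t + 1) a b := W_add (W_even S.symm hab t) (W_one.2 hab)
      apply seq_of_W e1 (hS.symm e1)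
      apply W_mul
      apply hx
      nlinarith
    choose ζ hζ0 hζe hζa using hζ
    obtain ⟨y, w, N', hy, hw0, hwN, hw⟩ := triangle_loop hS hn hT hζ0 hζa hζe
    have h7 := W_unmul (W_of_seq w hw N')
    rw [hw0, hwN] at h7
    exact ih y _ hy (W_symm S.symm h7)

end Pool.Agent.E8helper68.LL
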