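import Pool.Agent.E8helper68.LL.Basic
import Pool.Agent.E8helper68.LL.Col

/-!
# Local loop lemma: the case of a triangle connected to the absorbed vertex
-/

set_option autoImplicit false

universe u

namespace Pool.Agent.E8helper68.LL

variable {A : Type u} {n : ℕ}

/-- an element of `Fin 3` different from `p` and from `q` -/
def nx (p q : Fin 3) : Fin 3 := if p ≠ 0 ∧ q ≠ 0 then 0 else if p ≠ 1 ∧ q ≠ 1 then 1 else 2

theorem nx_left : ∀ p q : Fin 3, nx p q ≠ p := by decide

theorem nx_right : ∀ p q : Fin 3, nx p q ≠ q := by decide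

/-- a walk inside the triangle, starting next to `p`, which avoids `q` -/
def tri (p q : Fin 3) (j : ℕ) : Fin 3 := if j % 2 = 1 then nx p q else nx (nx p q) q

theorem tri_one (p q : Fin 3) : tri p q 1 ≠ p := by
  simp only [tri]
  exact nx_left p q

theorem tri_ne (p q : Fin 3) (j : ℕ) : tri p q j ≠ q := by
  unfold tri
  split_ifs
  · exact nx_right _ _
  · exact nx_right _ _

theorem tri_succ (p q : Fin 3) (j : ℕ) : tri p q (j + 1) ≠ tri p q j := by
  unfold tri
  rcases Nat.mod_two_eq_zero_or_one j with h | h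
  · rw [if_pos (by omega), if_neg (by omega)]
    exact (nx_left _ _).symm
  · rw [if_neg (by omega), if_pos (by omega)]
    exact nx_left _ _

/-- the word `g, k, g, k, ...` -/
def pw (k g : Fin n) : ℕ → Fin n := fun i => if i % 2 = 0 then g else k

theorem pw_valid {k g : Fin n} (h : g ≠ k) : Valid (pw k g) := by
  intro i
  unfold pw
  rcases Nat.mod_two_eq_zero_or_one i with h1 | h1
  · rw [if_pos h1, if_neg (by omega)]
    exact h
  · rw [if_neg (by omega), if_pos (by omega)]
    exact h.symm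

section

variable (R : A → A → Prop) (f : (Fin n → A) → A) (a : A)
variable (T : Fin 3 → A) (ζ : Fin 3 → ℕ → A) (m q : ℕ) (φ : (ℕ → Fin n) → Fin 3)

/-- the number of levels -/
def LL (m q : ℕ) : ℕ := m + 2 * q + 3

/-- the second part of a trajectory -/
def rest (x r : ℕ) (ψ col : Fin 3) : A :=
  if LL m q + r ≤ x + 2 * q then ζ ψ (x + 2 * q - r - LL m q)
  else T (tri ψ col (r - max (LL m q - x) (x + 2 * q - LL m q)))

/-- a trajectory -/
def V (C : ℕ → A) (x r : ℕ) (ψ col : Fin 3) : A :=
  if r ≤ q ∨ x + r ≤ LL m q then C (x + r) else rest T ζ m q x r ψ col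

/-- the family of elements, indexed by level and word -/
def c (r : ℕ) (ω : ℕ → Fin n) : A :=
  if h : LL m q ≤ r then ζ (φ ω) (r - LL m q) else
    comb f (ω 0) (LL m q + m)
      (fun i g => if i = 0 then c (r + 1) (cs g ω) else
        if r ≤ q ∨ i + 1 + r ≤ LL m q then c (i + 1 + r) (pw (ω 0) g)
        else rest T ζ m q (i + 1) r (φ (pw (ω 0) g)) (φ ω))
      (V T ζ m q (fun s => ζ 0 (s - LL m q)) (LL m q + m + 1) r 0 (φ ω))
termination_by LL m q - r
decreasing_by all_goals omega

theorem c_ge (r : ℕ) (ω : ℕ → Fin n) (h : LL m q ≤ r) :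
    c f T ζ m q φ r ω = ζ (φ ω) (r - LL m q) := by
  rw [c, dif_pos h]

theorem c_lt (r : ℕ) (ω : ℕ → Fin n) (h : r < LL m q) :
    c f T ζ m q φ r ω = comb f (ω 0) (LL m q + m)
      (fun i g => if i = 0 then c f T ζ m q φ (r + 1) (cs g ω) else
        V T ζ m q (fun s => c f T ζ m q φ s (pw (ω 0) g)) (i + 1) r (φ (pw (ω 0) g)) (φ ω))
      (V T ζ m q (fun s => ζ 0 (s - LL m q)) (LL m q + m + 1) r 0 (φ ω)) := by
  rw [c, dif_neg (by omega)]
  rfl

end

section

variable {R : A → A → Prop} {f : (Fin n → A) → A} {a : A}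
variable {T : Fin 3 → A} {ζ : Fin 3 → ℕ → A} {m q : ℕ} {φ : (ℕ → Fin n) → Fin 3}

theorem V_step (hT : ∀ i j, i ≠ j → R (T i) (T j))
    (ζ0 : ∀ θ, ζ θ 0 = T θ) (ζa : ∀ θ i, R (ζ θ i) (ζ θ (i + 1)))
    (C : ℕ → A) (x r : ℕ) (ψ col : Fin 3)
    (hC : ∀ s, LL m q ≤ s → C s = ζ ψ (s - LL m q))
    (hadj : R (C (x + r + 1)) (C (x + r))) :
    R (V T ζ m q C x (r + 1) ψ col) (V T ζ m q C x r ψ col) := by
  unfold V
  by_cases h1 : r + 1 ≤ q ∨ x + (r + 1) ≤ LL m q
  · rw [if_pos h1, if_pos (by omega)]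
    exact hadj
  · rw [if_neg h1]
    push Not at h1
    by_cases h2 : r ≤ q ∨ x + r ≤ LL m q
    · rw [if_pos h2, hC _ (by omega)]
      unfold rest
      by_cases h3 : LL m q + (r + 1) ≤ x + 2 * q
      · rw [if_pos h3]
        have h4 : x + r - LL m q = (x + 2 * q - (r + 1) - LL m q) + 1 := by omega
        rw [h4]
        exact ζa _ _
      · rw [if_neg h3]
        have h4 : x + r - LL m q = 0 := by omega
        have h5 : r + 1 - max (LL m q - x) (x + 2 * q - LL m q) = 1 := by omega
        rw [h4, h5, ζ0]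
        exact hT _ _ (tri_one _ _)
    · rw [if_neg h2]
      push Not at h2
      unfold rest
      by_cases h3 : LL m q + r ≤ x + 2 * q
      · rw [if_pos h3]
        by_cases h4 : LL m q + (r + 1) ≤ x + 2 * q
        · rw [if_pos h4]
          have h5 : x + 2 * q - r - LL m q = (x + 2 * q - (r + 1) - LL m q) + 1 := by omega
          rw [h5]
          exact ζa _ _
        · rw [if_neg h4]
          have h5 : x + 2 * q - r - LL m q = 0 := by omega
          have h6 : r + 1 - max (LL m q - x) (x + 2 * q - LL m q) = 1 := by omega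
          rw [h5, h6, ζ0]
          exact hT _ _ (tri_one _ _)
      · rw [if_neg h3, if_neg (by omega)]
        have h6 : r + 1 - max (LL m q - x) (x + 2 * q - LL m q) =
            (r - max (LL m q - x) (x + 2 * q - LL m q)) + 1 := by omega
        rw [h6]
        exact hT _ _ (tri_succ _ _ _)

theorem V_last (hT : ∀ i j, i ≠ j → R (T i) (T j))
    (C : ℕ → A) (x : ℕ) (ψ col : Fin 3) (hx : 2 ≤ x) (hx2 : x ≤ LL m q + m + 1) :
    R (T col) (V T ζ m q C x (LL m q - 1) ψ col) := by
  have hL : LL m q = m + 2 * q + 3 := rfl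
  unfold V
  rw [if_neg (by omega)]
  unfold rest
  rw [if_neg (by omega)]
  exact hT _ _ (tri_ne _ _ _).symm

theorem c_adj (S : Setup R f a) (hT : ∀ i j, i ≠ j → R (T i) (T j))
    (ζ0 : ∀ θ, ζ θ 0 = T θ) (ζa : ∀ θ i, R (ζ θ i) (ζ θ (i + 1)))
    (hφ : ∀ ω, Valid ω → φ ω ≠ φ (tl ω)) (d : ℕ) : ∀ r, LL m q ≤ r + d → ∀ ω, Valid ω →
    R (c f T ζ m q φ (r + 1) ω) (c f T ζ m q φ r ω) := by
  have hge : ∀ r, LL m q ≤ r → ∀ ω, R (c f T ζ m q φ (r + 1) ω) (c f T ζ m q φ r ω) := by
    intro r hr ω
    rw [c_ge f T ζ m q φ _ _ hr, c_ge f T ζ m q φ _ _ (by omega)]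
    have : r + 1 - LL m q = (r - LL m q) + 1 := by omega
    rw [this]
    exact S.symm (ζa _ _)
  induction d with
  | zero => intro r hr ω _; exact hge r hr ω
  | succ d ih =>
    intro r hr ω hω
    have hL : LL m q = m + 2 * q + 3 := rfl
    by_cases h0 : LL m q ≤ r
    · exact hge r h0 ω
    have ih' : ∀ s, r < s → ∀ ω, Valid ω →
        R (c f T ζ m q φ (s + 1) ω) (c f T ζ m q φ s ω) := by
      intro s hs ω hω
      exact ih s (by omega) ω hω
    by_cases h1 : r + 1 = LL m q
    · rw [c_lt f T ζ m q φ r ω (by omega), h1, c_ge f T ζ m q φ _ _ le_rfl, Nat.sub_self, ζ0]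
      have hr1 : r = LL m q - 1 := by omega
      apply const_adj_comb S
      · intro i hi g hg
        by_cases h2 : i = 0
        · rw [if_pos h2, c_ge f T ζ m q φ _ _ le_rfl, Nat.sub_self, ζ0]
          exact hT _ _ (hφ (cs g ω) (hω.cs hg)).symm
        · rw [if_neg h2, hr1]
          exact V_last hT _ _ _ _ (by omega) (by omega)
      · rw [hr1]
        exact V_last hT _ _ _ _ (by omega) (by omega)
    · rw [c_lt f T ζ m q φ r ω (by omega), c_lt f T ζ m q φ (r + 1) ω (by omega)]
      apply comb_adj S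
      · intro i hi g hg
        by_cases h2 : i = 0
        · rw [if_pos h2, if_pos h2]
          exact ih' (r + 1) (by omega) _ (hω.cs hg)
        · rw [if_neg h2, if_neg h2]
          apply V_step hT ζ0 ζa
          · intro s hs
            exact c_ge f T ζ m q φ _ _ hs
          · exact ih' (i + 1 + r) (by omega) _ (pw_valid hg)
      · apply V_step hT ζ0 ζa
        · intro s hs
          rfl
        · have : LL m q + m + 1 + r + 1 - LL m q = (LL m q + m + 1 + r - LL m q) + 1 := by omega
          rw [this]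
          exact S.symm (ζa _ _)

theorem c_dep (hloc : ∀ ω ω' : ℕ → Fin n, (∀ i < q, ω i = ω' i) → φ ω = φ ω') (d : ℕ) :
    ∀ r, LL m q ≤ r + d → ∀ ω ω' : ℕ → Fin n, (∀ i ≤ r, ω i = ω' i) →
    c f T ζ m q φ r ω = c f T ζ m q φ r ω' := by
  have hL : LL m q = m + 2 * q + 3 := rfl
  have hge : ∀ r, LL m q ≤ r → ∀ ω ω' : ℕ → Fin n, (∀ i ≤ r, ω i = ω' i) →
      c f T ζ m q φ r ω = c f T ζ m q φ r ω' := by
    intro r hr ω ω' h
    rw [c_ge f T ζ m q φ _ _ hr, c_ge f T ζ m q φ _ _ hr,
      hloc ω ω' (fun i hi => h i (by omega))]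
  induction d with
  | zero => intro r hr; exact hge r hr
  | succ d ih =>
    intro r hr ω ω' h
    by_cases h0 : LL m q ≤ r
    · exact hge r h0 ω ω' h
    rw [c_lt f T ζ m q φ r ω (by omega), c_lt f T ζ m q φ r ω' (by omega), h 0 (by omega)]
    have e1 : ∀ g : Fin n, c f T ζ m q φ (r + 1) (cs g ω) = c f T ζ m q φ (r + 1) (cs g ω') := by
      intro g
      apply ih (r + 1) (by omega)
      intro i hi
      cases i with
      | zero => rfl
      | succ i => exact h i (by omega)
    have e2 : ∀ (C : ℕ → A) (x : ℕ) (ψ : Fin 3),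
        V T ζ m q C x r ψ (φ ω) = V T ζ m q C x r ψ (φ ω') := by
      intro C x ψ
      unfold V
      by_cases h1 : r ≤ q
      · rw [if_pos (Or.inl h1), if_pos (Or.inl h1)]
      · rw [hloc ω ω' (fun i hi => h i (by omega))]
    congr 1
    · funext i g
      rw [e1 g, e2]
    · exact e2 _ _ _

/-- the local loop lemma for a triangle connected to `a` -/
theorem triangle_loop (S : Setup R f a) (hn : 2 ≤ n) (hT : ∀ i j, i ≠ j → R (T i) (T j))
    (ζ0 : ∀ θ, ζ θ 0 = T θ) (ζa : ∀ θ i, R (ζ θ i) (ζ θ (i + 1))) (ζe : ∀ θ, ζ θ (m + 1) = a) :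
    ∃ (x : A) (w : ℕ → A) (N : ℕ), R x x ∧ w 0 = x ∧ w N = a ∧ ∀ i, R (w i) (w (i + 1)) := by
  obtain ⟨q, φ, hφ, hloc⟩ := exists_col n
  have hL : LL m q = m + 2 * q + 3 := rfl
  have hadj : ∀ r ω, Valid ω → R (c f T ζ m q φ (r + 1) ω) (c f T ζ m q φ r ω) :=
    fun r => c_adj S hT ζ0 ζa hφ (LL m q) r (by omega)
  have hdep : ∀ r, ∀ ω ω' : ℕ → Fin n, (∀ i ≤ r, ω i = ω' i) →
    c f T ζ m q φ r ω = c f T ζ m q φ r ω' := fun r => c_dep hloc (LL m q) r (by omega)
  -- a letter different from `k`
  have ho : ∀ k : Fin n, ∃ g : Fin n, k ≠ g := by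
    intro k
    by_cases hk : (k : ℕ) = 0
    · exact ⟨⟨1, by omega⟩, fun h => by rw [h] at hk; simp at hk⟩
    · exact ⟨⟨0, by omega⟩, fun h => by rw [h] at hk; simp at hk⟩
  choose o ho using ho
  have hgood : ∀ k : Fin n, Good R f a k (fun g => c f T ζ m q φ 0 (pw (o g) g)) := by
    intro k
    have h1 := good_comb S k (LL m q + m) (fun j g => c f T ζ m q φ j (pw k g))
      (fun i hi g hg => S.symm (hadj i _ (pw_valid hg))) (fun g hg => by
        rw [c_ge f T ζ m q φ _ _ (by omega), Nat.add_sub_cancel_left]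
        have := ζa (φ (pw k g)) m
        rw [ζe] at this
        exact S.symm this)
    have h2 : (fun g => if g = k then comb f k (LL m q + m)
        (fun i g => c f T ζ m q φ (i + 1) (pw k g)) a else c f T ζ m q φ 0 (pw k g)) =
        fun g => c f T ζ m q φ 0 (pw (o g) g) := by
      funext g
      by_cases hg : g = k
      · subst hg
        rw [if_pos rfl, c_lt f T ζ m q φ 0 _ (by omega)]
        have e0 : pw (o g) g 0 = g := rfl
        rw [e0]
        congr 1
        · funext i g'
          by_cases hi : i = 0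
          · rw [if_pos hi, hi]
            apply hdep
            intro j hj
            have : j = 0 ∨ j = 1 := by omega
            rcases this with rfl | rfl
            · rfl
            · rfl
          · rw [if_neg hi]
            unfold V
            rw [if_pos (Or.inl (Nat.zero_le _))]
        · unfold V
          rw [if_pos (Or.inl (Nat.zero_le _))]
          have : LL m q + m + 1 + 0 - LL m q = m + 1 := by omega
          show a = ζ 0 (LL m q + m + 1 + 0 - LL m q)
          rw [this, ζe]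
      · rw [if_neg hg]
        apply hdep
        intro j hj
        have : j = 0 := by omega
        rw [this]
        rfl
    rw [h2] at h1
    exact h1
  have hloop := loop_of_good S _ hgood
  -- the loop is connected to `a`
  set k : Fin n := ⟨0, by omega⟩ with hk
  set cc : Fin n → A := fun g => c f T ζ m q φ 0 (pw (o g) g) with hcc
  refine ⟨f cc, fun i => if i = 0 then f cc else c f T ζ m q φ (i - 1) (pw (o k) k),
    LL m q + m + 2, hloop, by simp, ?_, ?_⟩
  · show (if LL m q + m + 2 = 0 then f cc else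
      c f T ζ m q φ (LL m q + m + 2 - 1) (pw (o k) k)) = a
    rw [if_neg (by omega), c_ge f T ζ m q φ _ _ (by omega)]
    have : LL m q + m + 2 - 1 - LL m q = m + 1 := by omega
    rw [this, ζe]
  · intro i
    show R (if i = 0 then f cc else c f T ζ m q φ (i - 1) (pw (o k) k))
      (if i + 1 = 0 then f cc else c f T ζ m q φ (i + 1 - 1) (pw (o k) k))
    by_cases hi : i = 0
    · subst hi
      rw [if_pos rfl, if_neg (by omega)]
      exact (hgood k).adj S
    · rw [if_neg hi, if_neg (by omega)]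
      have : i + 1 - 1 = (i - 1) + 1 := by omega
      rw [this]
      exact S.symm (hadj _ _ (pw_valid (ho k)))

end

end Pool.Agent.E8helper68.LL
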